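import Pool.Agent.P8H89.GM.La
import Pool.Agent.Y958.RM.Any
import Pool.Agent.Y958.RM.Cor

set_option autoImplicit false

/-! The variance of the primes in the residue classes to all the moduli near `N` minus few elements of a
set which meets every `[x, l x]`. -/

namespace Pool.Agent.P8H89.GM
open Finset
open Pool.Agent.Y885
open Pool.Agent.H373R2.T7
open Pool.Agent.TH894.PV (G)
open Pool.Agent.Y958.RM (eH COR)

open Classical in
lemma union_bound1 {ι : Type} (Ω : Finset ι) (p : ι → ℝ) (hp : ∀ ω ∈ Ω, 0 ≤ p ω) (R : ℕ)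
    (Bad : ℤ → ι → Prop) (t : ℝ)
    (h1 : ∀ r ∈ Icc (-(R : ℤ)) (R : ℤ), ∑ ω ∈ Ω, (if Bad r ω then p ω else 0) ≤ t)
    (bad : ι → Prop) (hdec : DecidablePred bad)
    (hbad : ∀ ω ∈ Ω, bad ω → ∃ r ∈ Icc (-(R : ℤ)) (R : ℤ), Bad r ω) :
    ∑ ω ∈ Ω, (if bad ω then p ω else 0) ≤ (2 * R + 1) * t := by
  have h := union_bound Ω p hp 1 R (fun _ r ω => Bad r ω) t (fun _ _ r hr => h1 r hr) bad hdec
    (fun ω hω hb => ⟨1, by simp, hbad ω hω hb⟩)
  rw [Nat.cast_one, one_mul] at h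
  exact h

/-- the variance of the primes in the classes to all the moduli near `N` minus few elements -/
theorem any_near (l κ W : ℕ) (hl : 2 ≤ l) : ∃ C : ℝ, ∀ ε : ℝ, 0 < ε → ε ≤ 1 → ∃ N₀ : ℕ, ∀ A : Set ℕ,
    (∀ x : ℕ, 1 ≤ x → ∃ a ∈ A, x ≤ a ∧ a ≤ l * x) → ∀ N : ℕ, N₀ ≤ N →
    ∃ S : Finset ℕ, (∀ a ∈ S, a ∈ A) ∧ (S.card : ℝ) ≤ C * Real.log (Real.log N) ^ 2 ∧ 2 * ∑ a ∈ S, a ≤ N ∧
      ∀ q : ℕ, |((q : ℤ) - ((N : ℤ) - ((∑ a ∈ S, a : ℕ) : ℤ)) : ℝ)| ≤ Real.log N ^ W →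
        ∀ x : ℝ, (q : ℝ) ≤ x → x ≤ q * Real.log N ^ κ →
          |G x q - x * Real.log q| ≤ ε * (x * Real.log q) := by
  classical
  obtain ⟨V, hV⟩ := Pool.Agent.Y958.RM.main Pool.Agent.Y958.RM.cor (2 * κ + 1) (2 * W + 2) (4 * l) 20
    (by omega) (by norm_num)
  obtain ⟨C, hC⟩ := Pool.Agent.Y454.RM.t_LASH l hl V
  refine ⟨C, fun ε hε hε1 => ?_⟩
  obtain ⟨b, hb⟩ : ∃ b, b = 4 * l := ⟨_, rfl⟩
  obtain ⟨H, hH⟩ : ∃ H, H = 2 * (2 * κ + 1 + 1) := ⟨_, rfl⟩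
  rw [← hH, ← hb] at hV
  obtain ⟨c, N1, hc⟩ := hC (8 * H + 8)
  rw [← hb] at hc
  have hb2 : 2 ≤ b := by omega
  have hbn : 0 < b := by omega
  obtain ⟨k0, h0⟩ := hV ε hε hε1 c
  obtain ⟨N2, h2⟩ := ev_loglog 4
  obtain ⟨K3, h3⟩ := pow_le_two_pow (2 * W + 3)
  refine ⟨N1 + N2 + b ^ (k0 + K3 + 4 * b ^ 2 + 4), fun A hA N hN => ?_⟩
  obtain ⟨K, hK⟩ : ∃ K, K = Nat.log b N + 1 := ⟨_, rfl⟩
  have hN0 : 0 < N := by
    have : 0 < b ^ (k0 + K3 + 4 * b ^ 2 + 4) := Nat.pow_pos hbn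
    omega
  have hKK : k0 + K3 + 4 * b ^ 2 + 4 ≤ K := by
    have : k0 + K3 + 4 * b ^ 2 + 4 ≤ Nat.log b N := Nat.le_log_of_pow_le (by omega) (by omega)
    omega
  have hKlow : b ^ (K - 1) ≤ N := by
    rw [hK, Nat.add_sub_cancel]
    exact Nat.pow_log_le_self b (by omega)
  have hKup : N < b ^ K := by rw [hK]; exact Nat.lt_pow_succ_log_self (by omega) _
  have hNr : (0 : ℝ) < N := by exact_mod_cast hN0
  have hbr : (8 : ℝ) ≤ b := by exact_mod_cast (by omega : 8 ≤ b)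
  have hlogb : 2 ≤ Real.log b := by
    rw [Real.le_log_iff_exp_le (by linarith)]
    have h1 := Real.exp_one_lt_d9
    have h2 : Real.exp 2 = Real.exp 1 * Real.exp 1 := by rw [← Real.exp_add]; norm_num
    rw [h2]
    have h3 := Real.exp_pos 1
    nlinarith
  have hlogb2 : Real.log b ≤ b := (Real.log_le_sub_one_of_pos (by linarith)).trans (by linarith)
  have hKb : (b : ℝ) ≤ K := by
    have : b ≤ K := by
      have : b ≤ b ^ 2 := Nat.le_self_pow (by norm_num) b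
      omega
    exact_mod_cast this
  have hK4 : (4 : ℝ) ≤ K := by exact_mod_cast (by omega : 4 ≤ K)
  -- log N against K
  have hLN1 : Real.log N ≤ (K : ℝ) ^ 2 := by
    have q1 : Real.log N ≤ K * Real.log b := by
      have q2 : Real.log N ≤ Real.log ((b ^ K : ℕ) : ℝ) :=
        Real.log_le_log hNr (by exact_mod_cast hKup.le)
      rwa [Nat.cast_pow, Real.log_pow] at q2
    nlinarith
  have hLN2 : (K : ℝ) ≤ Real.log N := by
    have q1 : ((K - 1 : ℕ) : ℝ) * Real.log b ≤ Real.log N := by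
      have q2 : Real.log ((b ^ (K - 1) : ℕ) : ℝ) ≤ Real.log N :=
        Real.log_le_log (by exact_mod_cast Nat.pow_pos hbn) (by exact_mod_cast hKlow)
      rwa [Nat.cast_pow, Real.log_pow] at q2
    rw [Nat.cast_sub (by omega), Nat.cast_one] at q1
    nlinarith
  have hLN0 : 0 < Real.log N := by linarith
  have hK0 : (0 : ℝ) < K := by linarith
  obtain ⟨e', he'⟩ : ∃ e', e' = eH b H (K + 1) := ⟨_, rfl⟩
  have he1 : ((e' + 1 : ℕ) : ℝ) ≤ ((8 * H + 8 : ℕ) : ℝ) * Real.log (Real.log N) := by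
    have q2 : Real.log K ≤ Real.log (Real.log N) := Real.log_le_log hK0 hLN2
    have q3 := one_le_log K (by omega)
    have q4 : (0 : ℝ) ≤ H := Nat.cast_nonneg H
    have hK1 : Real.log ((K + 1 : ℕ) : ℝ) ≤ 2 * Real.log K := by
      have a1 : Real.log ((K + 1 : ℕ) : ℝ) ≤ Real.log ((K : ℝ) ^ 2) := by
        apply Real.log_le_log (by positivity)
        push_cast
        nlinarith
      rw [Real.log_pow] at a1
      push_cast at a1 ⊢
      exact a1
    have g1 : (Nat.log b ((K + 1) ^ H) : ℝ) ≤ 2 * H * Real.log ((K + 1 : ℕ) : ℝ) := by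
      have h2 : b ^ Nat.log b ((K + 1) ^ H) ≤ (K + 1) ^ H := Nat.pow_log_le_self b (pow_ne_zero _ (by omega))
      have h3 : (2 : ℝ) ^ Nat.log b ((K + 1) ^ H) ≤ ((K + 1 : ℕ) : ℝ) ^ H := by
        exact_mod_cast (Nat.pow_le_pow_left hb2 _).trans h2
      have h4 := Real.log_le_log (by positivity) h3
      rw [Real.log_pow, Real.log_pow] at h4
      have h5 := Real.log_two_gt_d9
      have h6 : (0 : ℝ) ≤ (Nat.log b ((K + 1) ^ H) : ℝ) := Nat.cast_nonneg _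
      nlinarith
    rw [he']
    unfold eH
    push_cast
    push_cast at g1 hK1
    nlinarith [mul_nonneg q4 (by linarith : 0 ≤ Real.log K)]
  obtain ⟨R, hR⟩ : ∃ R : ℕ, R = K ^ (2 * W) := ⟨_, rfl⟩
  have hRN : 4 * R ≤ N := by
    have q1 : K ^ (2 * W + 3) ≤ 2 ^ K := h3 K (by omega)
    have q2 : 2 ^ K ≤ 2 * 2 ^ (K - 1) := by
      rw [← pow_succ']
      apply le_of_eq
      congr 1
      omega
    have q3 : 2 ^ (K - 1) ≤ b ^ (K - 1) := Nat.pow_le_pow_left hb2 _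
    have q4 : K ^ (2 * W + 3) = R * K ^ 3 := by rw [hR, pow_add]
    have q5 : 8 ≤ K ^ 3 := by
      calc 8 = 2 ^ 3 := by norm_num
        _ ≤ K ^ 3 := Nat.pow_le_pow_left (by omega) 3
    have q6 : R * 8 ≤ R * K ^ 3 := Nat.mul_le_mul_left _ q5
    omega
  have hRz : (4 : ℤ) * R ≤ N := by exact_mod_cast hRN
  have hNz : (N : ℤ) < (b : ℤ) ^ K := by exact_mod_cast hKup
  have hNz0 : (0 : ℤ) < N := by exact_mod_cast hN0
  obtain ⟨S, s1, s2, s3, s4⟩ := hc A hA N (by omega) (e' + 1) he1 (fun z : ℤ =>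
    ∀ q : ℕ, |((q : ℤ) - z : ℝ)| ≤ Real.log N ^ W →
        ∀ x : ℝ, (q : ℝ) ≤ x → x ≤ q * Real.log N ^ κ →
          |G x q - x * Real.log q| ≤ ε * (x * Real.log q)) (by
    intro ι Ω p Y hp hlaw hY bad hdec hbad
    rw [← hK] at hlaw
    have hKe : K + (e' + 1) = (K + 1) + eH b H (K + 1) := by rw [he']; ring
    rw [hKe] at hlaw
    have hp0 : ∀ ω ∈ Ω, 0 ≤ p ω := (hlaw 1 le_rfl (by simp)).nonneg
    have hub := union_bound1 Ω p hp0 R (fun r ω => ∃ x : ℝ, ((Y ω + r : ℤ) : ℝ) ≤ x ∧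
      x ≤ ((Y ω + r : ℤ) : ℝ) * Real.log N ^ κ ∧
      ¬ |G x (Y ω + r).toNat - x * Real.log ((Y ω + r : ℤ) : ℝ)| ≤ ε * (x * Real.log ((Y ω + r : ℤ) : ℝ)))
      (1 / ((K + 1 : ℕ) : ℝ) ^ (2 * W + 2)) (by
      intro r hr
      rw [mem_Icc] at hr
      refine le_trans (le_of_eq ?_) (h0 (K + 1) (by omega) ι Ω p (fun ω => Y ω + r) hp ?_ ?_
        (fun ω => ∃ x : ℝ, ((Y ω + r : ℤ) : ℝ) ≤ x ∧
          x ≤ ((Y ω + r : ℤ) : ℝ) * Real.log N ^ κ ∧
          ¬ |G x (Y ω + r).toNat - x * Real.log ((Y ω + r : ℤ) : ℝ)| ≤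
            ε * (x * Real.log ((Y ω + r : ℤ) : ℝ))) (fun _ => Classical.propDecidable _) ?_)
      · apply sum_congr rfl
        intro ω _
        congr
      · intro h hh1 hh2
        have hl1 := TLaw_shift (hlaw h hh1 (by rw [he']; omega)) ((h : ℤ) * r)
        have e : (fun ω => (h : ℤ) * (Y ω + r)) = fun ω => (h : ℤ) * Y ω + (h : ℤ) * r := by
          funext ω
          ring
        rw [e]
        exact hl1
      · intro ω hω
        obtain ⟨y1, y2⟩ := hY ω hω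
        have hb2' : (2 : ℤ) ≤ b := by exact_mod_cast hb2
        have q2 : (b : ℤ) ^ K * 2 ≤ (b : ℤ) ^ (K + 1) := by
          rw [pow_succ]
          exact mul_le_mul_of_nonneg_left hb2' (by positivity)
        rw [abs_le]
        constructor <;> linarith
      · intro ω hω hB
        obtain ⟨y1, y2⟩ := hY ω hω
        obtain ⟨x, x1, x2, x3⟩ := hB
        have hY4 : (N : ℤ) ≤ 4 * (Y ω + r) := by linarith
        have hY0 : 0 ≤ Y ω + r := by linarith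
        refine ⟨?_, x, x1, x2.trans ?_, x3⟩
        · have e1 : (b : ℤ) ^ (K + 1) = b ^ 2 * b ^ (K - 1) := by
            rw [← pow_add]
            congr 1
            omega
          have e2 : (b : ℤ) ^ (K - 1) ≤ N := by exact_mod_cast hKlow
          have e3 : (b : ℤ) ^ (K + 1) ≤ b ^ 2 * (4 * (Y ω + r)) := by
            rw [e1]
            exact mul_le_mul_of_nonneg_left (e2.trans hY4) (by positivity)
          have e4 : ((4 * b ^ 2 : ℕ) : ℤ) ≤ ((K + 1 : ℕ) : ℤ) := by exact_mod_cast (by omega : 4 * b ^ 2 ≤ K + 1)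
          have e5 : ((K + 1 : ℕ) : ℤ) ≤ ((K + 1 : ℕ) : ℤ) ^ (2 * κ + 1) := by
            calc ((K + 1 : ℕ) : ℤ) = ((K + 1 : ℕ) : ℤ) ^ 1 := (pow_one _).symm
              _ ≤ ((K + 1 : ℕ) : ℤ) ^ (2 * κ + 1) :=
                pow_le_pow_right₀ (by exact_mod_cast (by omega : 1 ≤ K + 1)) (by omega)
          have e6 : (Y ω + r) * ((4 * b ^ 2 : ℕ) : ℤ) ≤ (Y ω + r) * ((K + 1 : ℕ) : ℤ) ^ (2 * κ + 1) :=
            mul_le_mul_of_nonneg_left (e4.trans e5) hY0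
          push_cast at e6 ⊢
          linarith
        · apply mul_le_mul_of_nonneg_left _ (by exact_mod_cast hY0)
          have e1 : (1 : ℝ) ≤ ((K + 1 : ℕ) : ℝ) := by exact_mod_cast (by omega : 1 ≤ K + 1)
          calc Real.log N ^ κ ≤ ((K : ℝ) ^ 2) ^ κ := pow_le_pow_left₀ hLN0.le hLN1 _
            _ ≤ (((K + 1 : ℕ) : ℝ) ^ 2) ^ κ := by
                apply pow_le_pow_left₀ (by positivity)
                apply pow_le_pow_left₀ hK0.le
                exact_mod_cast (by omega : K ≤ K + 1)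
            _ = ((K + 1 : ℕ) : ℝ) ^ (2 * κ) := by rw [pow_mul]
            _ ≤ ((K + 1 : ℕ) : ℝ) ^ (2 * κ + 1) := pow_le_pow_right₀ e1 (by omega)) bad hdec (by
      intro ω hω hB
      have hB' := hbad ω hω hB
      push Not at hB'
      obtain ⟨q, a1, x, a2, a3, a4⟩ := hB'
      have e0 : Y ω + ((q : ℤ) - Y ω) = q := by ring
      refine ⟨(q : ℤ) - Y ω, mem_Icc.2 (abs_le.1 ?_), x, ?_, ?_, ?_⟩
      · have q1 : |((q : ℤ) - Y ω : ℝ)| ≤ ((K : ℝ) ^ 2) ^ W := a1.trans (pow_le_pow_left₀ hLN0.le hLN1 _)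
        rw [← pow_mul] at q1
        rw [hR]
        have q2 : ((|(q : ℤ) - Y ω| : ℤ) : ℝ) ≤ ((K ^ (2 * W) : ℕ) : ℝ) := by
          push_cast
          exact_mod_cast q1
        exact_mod_cast q2
      · rw [e0]
        exact_mod_cast a2
      · rw [e0]
        exact_mod_cast a3
      · rw [e0, Int.toNat_natCast]
        push_cast
        exact not_le.2 a4)
    refine hub.trans ?_
    have q2 : (2 * (R : ℝ) + 1) ≤ (K : ℝ) ^ (2 * W + 1) := by
      have q3 : (1 : ℝ) ≤ (K : ℝ) ^ (2 * W) := one_le_pow₀ (by linarith)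
      rw [hR, pow_succ]
      push_cast
      nlinarith
    have q1 : (1 : ℝ) / ((K + 1 : ℕ) : ℝ) ^ (2 * W + 2) ≤ 1 / (K : ℝ) ^ (2 * W + 2) := by
      apply one_div_le_one_div_of_le (by positivity)
      apply pow_le_pow_left₀ hK0.le
      exact_mod_cast (by omega : K ≤ K + 1)
    have hW0 : (0 : ℝ) < (K : ℝ) ^ (2 * W + 1) := by positivity
    calc (2 * (R : ℝ) + 1) * (1 / ((K + 1 : ℕ) : ℝ) ^ (2 * W + 2))
        ≤ (K : ℝ) ^ (2 * W + 1) * (1 / (K : ℝ) ^ (2 * W + 2)) := by gcongr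
      _ = 1 / K := by
          rw [pow_succ (K : ℝ) (2 * W + 1)]
          field_simp
      _ ≤ 1 / 2 := by
          apply one_div_le_one_div_of_le (by norm_num)
          linarith)
  refine ⟨S, s1, s2, s3, fun q hq => ?_⟩
  have h5 := s4 q
  push_cast at h5 hq ⊢
  exact h5 hq

end Pool.Agent.P8H89.GM
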