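import Pool.Agent.Y877.SxJ

set_option autoImplicit false

/-! Conditions on the `(q + 2)`-th prime, and on the `(m - q + 2)`-th prime, for almost all shifts, in every dense
set of integers `q < m`. -/

namespace Pool.Agent.P8H89.GM

open Finset
open Pool.Agent.H373R2.T7 (ev_L' Vz)

/-- the `k`-th prime -/
noncomputable def pr (k : ℕ) : ℕ := Nat.nth Nat.Prime (k - 1)

theorem ix_core (A C : ℕ) (ε : ℝ) (hε : 0 < ε) (hε1 : ε ≤ 1) : ∃ K₀ : ℕ, ∀ K₁ : ℕ, ∃ m₀ : ℕ, ∀ m : ℕ, m₀ ≤ m →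
    ∀ J ⊆ range m, (m : ℝ) ≤ J.card * Real.log m ^ A →
    ∀ y : ℕ, K₀ * Real.log (Real.log m) ≤ y → y ≤ K₁ * Real.log (Real.log m) →
    ∀ g₀ G : ℕ, primorial y * (g₀ + G) ≤ m → (m : ℝ) ≤ primorial y * G * Real.log m ^ C →
      (((Icc 1 G).filter (fun t => ((J.filter (fun q => (pr (q + 2) + primorial y * (g₀ + t)).Prime)).card : ℝ) <
        (1 - ε) * (J.card / (Vz y * Real.log m)))).card : ℝ) ≤ ε * G ∧
      ∀ g₁ G' : ℕ, primorial y * (g₁ + G') ≤ m → (m : ℝ) ≤ primorial y * G' * Real.log m ^ C →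
        (((Icc 1 G ×ˢ Icc 1 G').filter (fun t => ((J.filter (fun q =>
          (pr (q + 2) + primorial y * (g₀ + t.1)).Prime ∧ (pr (m - q + 2) + primorial y * (g₁ + t.2)).Prime)).card : ℝ) <
          (1 - ε) * (J.card / (Vz y * Real.log m) ^ 2))).card : ℝ) ≤ ε * (G * G') := by
  classical
  obtain ⟨Ka, hKa⟩ := Pool.Agent.Y877.SX.step 1 (Or.inl rfl) A 5 C ε hε hε1
  obtain ⟨Kb, hKb⟩ := Pool.Agent.Y877.SX.step2 1 1 (Or.inl rfl) (Or.inl rfl) A 5 C ε hε hε1
  refine ⟨max Ka Kb, fun K₁ => ?_⟩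
  obtain ⟨na, hna⟩ := hKa K₁
  obtain ⟨nb, hnb⟩ := hKb K₁
  obtain ⟨n4, hn4⟩ := Pool.Agent.Y877.SX.nth_le_log
  obtain ⟨n5, hn5⟩ := ev_L' 3
  refine ⟨max (max na nb) (max n4 (max n5 4)), fun m hm J hJ hJ2 y hy1 hy2 g₀ G hg1 hg2 => ?_⟩
  have b1 : na ≤ m := (le_max_left _ _).trans ((le_max_left _ _).trans hm)
  have b2 : nb ≤ m := (le_max_right _ _).trans ((le_max_left _ _).trans hm)
  have b3 : n4 ≤ m := (le_max_left _ _).trans ((le_max_right _ _).trans hm)
  have b4 : n5 ≤ m := (le_max_left _ _).trans ((le_max_right _ _).trans ((le_max_right _ _).trans hm))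
  have b5 : 4 ≤ m := (le_max_right _ _).trans ((le_max_right _ _).trans ((le_max_right _ _).trans hm))
  have hL3 := hn5 m b4
  have hll : 0 ≤ Real.log (Real.log m) := Real.log_nonneg (by linarith)
  have hya : (Ka : ℝ) * Real.log (Real.log m) ≤ y := by
    refine le_trans ?_ hy1
    apply mul_le_mul_of_nonneg_right _ hll
    exact_mod_cast le_max_left _ _
  have hyb : (Kb : ℝ) * Real.log (Real.log m) ≤ y := by
    refine le_trans ?_ hy1
    apply mul_le_mul_of_nonneg_right _ hll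
    exact_mod_cast le_max_right _ _
  have hbound : ∀ i : ℕ, i ≤ 4 * m → (Nat.nth Nat.Prime i : ℝ) ≤ m * Real.log m ^ 5 := by
    intro i hi
    refine (hn4 m b3 i hi).trans ?_
    apply mul_le_mul_of_nonneg_left _ (Nat.cast_nonneg _)
    exact pow_le_pow_right₀ (by linarith) (by norm_num)
  have hJm : ∀ q ∈ J, q < m := fun q hq => mem_range.1 (hJ hq)
  have hinj : Function.Injective (Nat.nth Nat.Prime) := Nat.nth_injective Nat.infinite_setOfPred_prime
  have hf1 : ∀ q ∈ J, (pr (q + 2)).Prime ∧ (pr (q + 2) : ℝ) ≤ m * Real.log m ^ 5 := by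
    intro q hq
    have h1 := hJm q hq
    exact ⟨Nat.prime_nth_prime _, hbound _ (by omega)⟩
  have hf2 : ∀ q ∈ J, (pr (m - q + 2)).Prime ∧ (pr (m - q + 2) : ℝ) ≤ m * Real.log m ^ 5 := by
    intro q hq
    exact ⟨Nat.prime_nth_prime _, hbound _ (by omega)⟩
  have hi1 : Set.InjOn (fun q => pr (q + 2)) (J : Set ℕ) := by
    intro a _ b _ hab
    have := hinj hab
    omega
  have hi2 : Set.InjOn (fun q => pr (m - q + 2)) (J : Set ℕ) := by
    intro a ha b hb hab
    have h1 := hinj hab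
    have h2 := hJm a ha
    have h3 := hJm b hb
    omega
  constructor
  · have h1 := hna m b1 y hya hy2 J hJ2 (fun q => pr (q + 2)) hi1 hf1 g₀ G
      (by rw [pow_one]; exact hg1) (by rw [pow_one]; exact hg2)
    simp only [pow_one, Nat.cast_one, one_mul] at h1
    exact h1
  · intro g₁ G' hg3 hg4
    have h1 := hnb m b2 y hyb hy2 J hJ2 (fun q => pr (q + 2)) (fun q => pr (m - q + 2)) hi1 hi2
      hf1 hf2 g₀ G g₁ G' (by rw [pow_one]; exact hg1) (by rw [pow_one]; exact hg2)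
      (by rw [pow_one]; exact hg3) (by rw [pow_one]; exact hg4)
    simp only [pow_one, Nat.cast_one, one_mul, ← sq] at h1
    exact h1

end Pool.Agent.P8H89.GM
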