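import Pool.Agent.P8H89.GM.Rs
import Pool.Agent.Y454.RM.Lash

set_option autoImplicit false

/-! Goldbach pairs for all the even multiples of all the integers near `N` minus few elements of a set
which meets every `[x, l x]`. -/

namespace Pool.Agent.P8H89.GM
open Finset
open Pool.Agent.Y885
open Pool.Agent.H807R2.Dav
open Pool.Agent.W93.PG (WinP)

lemma spec_shift (b V K : ℕ) {ι : Type} (Ω : Finset ι) (p : ι → ℝ) (Y : ι → ℤ) (a : ℤ) :
    Spec b V K Ω p (fun ω => Y ω + a) = Spec b V K Ω p Y := by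
  unfold Spec
  apply filter_congr
  intro t _
  have h : ∑ ω ∈ Ω, ((p ω : ℝ) : ℂ) * ee (((Y ω + a : ℤ) : ℝ) * ((t : ℝ) / ((b ^ (K + 1) : ℕ) : ℝ))) =
      ee ((a : ℝ) * ((t : ℝ) / ((b ^ (K + 1) : ℕ) : ℝ))) *
        ∑ ω ∈ Ω, ((p ω : ℝ) : ℂ) * ee ((Y ω : ℝ) * ((t : ℝ) / ((b ^ (K + 1) : ℕ) : ℝ))) := by
    rw [mul_sum]
    apply sum_congr rfl
    intro ω _
    rw [Int.cast_add, add_mul, ee_add]
    ring
  rw [h, norm_mul, norm_ee, one_mul]

lemma TLaw_shift {b E c V K : ℕ} {ι : Type} {Ω : Finset ι} {p : ι → ℝ} {Y : ι → ℤ}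
    (h : TLaw b E c V K Ω p Y) (a : ℤ) : TLaw b E c V K Ω p (fun ω => Y ω + a) :=
  ⟨h.nonneg, h.le_one, by rw [spec_shift]; exact h.thin⟩

open Classical in
lemma union_bound {ι : Type} (Ω : Finset ι) (p : ι → ℝ) (hp : ∀ ω ∈ Ω, 0 ≤ p ω) (H R : ℕ)
    (Bad : ℕ → ℤ → ι → Prop) (t : ℝ)
    (h1 : ∀ h ∈ Icc 1 H, ∀ r ∈ Icc (-(R : ℤ)) (R : ℤ), ∑ ω ∈ Ω, (if Bad h r ω then p ω else 0) ≤ t)
    (bad : ι → Prop) (hdec : DecidablePred bad)
    (hbad : ∀ ω ∈ Ω, bad ω → ∃ h ∈ Icc 1 H, ∃ r ∈ Icc (-(R : ℤ)) (R : ℤ), Bad h r ω) :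
    ∑ ω ∈ Ω, (if bad ω then p ω else 0) ≤ H * ((2 * R + 1) * t) := by
  have hn : ∀ ω ∈ Ω, ∀ (h : ℕ) (r : ℤ), 0 ≤ (if Bad h r ω then p ω else 0) := by
    intro ω hω h r
    split_ifs
    · exact hp ω hω
    · exact le_rfl
  have hpt : ∀ ω ∈ Ω, (if bad ω then p ω else 0) ≤
      ∑ h ∈ Icc 1 H, ∑ r ∈ Icc (-(R : ℤ)) (R : ℤ), (if Bad h r ω then p ω else 0) := by
    intro ω hω
    by_cases hb : bad ω
    · rw [if_pos hb]
      obtain ⟨h, hh, r, hr, hB⟩ := hbad ω hω hb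
      have q1 := single_le_sum (f := fun h : ℕ => ∑ r ∈ Icc (-(R : ℤ)) (R : ℤ),
        (if Bad h r ω then p ω else 0)) (fun h _ => sum_nonneg fun r _ => hn ω hω h r) hh
      refine le_trans ?_ q1
      have q2 := single_le_sum (f := fun r : ℤ => (if Bad h r ω then p ω else 0))
        (fun r _ => hn ω hω h r) hr
      refine le_trans ?_ q2
      change p ω ≤ if Bad h r ω then p ω else 0
      rw [if_pos hB]
    · rw [if_neg hb]
      exact sum_nonneg fun h _ => sum_nonneg fun r _ => hn ω hω h r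
  refine (sum_le_sum hpt).trans ?_
  rw [sum_comm]
  have hstep : ∀ h ∈ Icc 1 H, ∑ ω ∈ Ω, ∑ r ∈ Icc (-(R : ℤ)) (R : ℤ), (if Bad h r ω then p ω else 0) ≤
      (2 * R + 1) * t := by
    intro h hh
    rw [sum_comm]
    refine (sum_le_sum (h1 h hh)).trans ?_
    rw [sum_const, Int.card_Icc, nsmul_eq_mul]
    apply le_of_eq
    congr 1
    have q1 : ((R : ℤ) + 1 - -(R : ℤ)).toNat = 2 * R + 1 := by omega
    rw [q1]
    push_cast
    ring
  refine (sum_le_sum hstep).trans ?_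
  rw [sum_const, Nat.card_Icc, nsmul_eq_mul, Nat.add_sub_cancel]

lemma ev_loglog (M : ℝ) : ∃ N₀ : ℕ, ∀ N : ℕ, N₀ ≤ N → M ≤ Real.log N := by
  have h := (Real.tendsto_log_atTop.comp tendsto_natCast_atTop_atTop).eventually_ge_atTop M
  exact h.exists_forall_of_atTop

/-- integers minus few elements of a set: all multipliers and shifts -/
theorem las_mult (l : ℕ) (hl : 2 ≤ l) (J W A : ℕ) : ∃ C : ℝ, ∀ (m₀ : ℕ) (ε : ℝ), 0 < ε →
    ∀ (P : ℕ → Prop), (∀ m : ℕ, m₀ ≤ m → 2 ∣ m → WinP ε A m → P m) → ∃ N₀ : ℕ, ∀ T : Set ℕ,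
    (∀ x : ℕ, 1 ≤ x → ∃ a ∈ T, x ≤ a ∧ a ≤ l * x) → ∀ N : ℕ, N₀ ≤ N →
    ∃ S : Finset ℕ, (∀ a ∈ S, a ∈ T) ∧ (S.card : ℝ) ≤ C * Real.log (Real.log N) ^ 2 ∧
      2 * ∑ a ∈ S, a ≤ N ∧
      ∀ h : ℕ, 1 ≤ h → (h : ℝ) ≤ Real.log N ^ J → ∀ r : ℤ, |(r : ℝ)| ≤ Real.log N ^ W →
        0 < (h : ℤ) * ((N : ℤ) - ((∑ a ∈ S, a : ℕ) : ℤ) + r) →
        2 ∣ (h : ℤ) * ((N : ℤ) - ((∑ a ∈ S, a : ℕ) : ℤ) + r) →
        P ((h : ℤ) * ((N : ℤ) - ((∑ a ∈ S, a : ℕ) : ℤ) + r)).toNat := by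
  classical
  obtain ⟨U', hU'⟩ : ∃ U', U' = 2 * J + 2 * W + 2 := ⟨_, rfl⟩
  obtain ⟨W₀, hW₀⟩ : ∃ W₀, W₀ = 2 * J + 1 := ⟨_, rfl⟩
  obtain ⟨C, hC⟩ := Pool.Agent.Y454.RM.t_LASH l hl (2 * (U' + 2 * (A + W₀ + 4) + 9) + 6)
  refine ⟨C, fun m₀ ε hε P hP => ?_⟩
  obtain ⟨b, hbl⟩ : ∃ b, b = 4 * l := ⟨_, rfl⟩
  rw [← hbl] at hC
  have hb : 2 ≤ b := by omega
  obtain ⟨c, N1, hc⟩ := hC (4 * J + 5)
  obtain ⟨K₀, h0⟩ := tl_win0 b hb 20 c A W₀ U' m₀ (by norm_num) ε hε P hP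
  obtain ⟨N2, h2⟩ := ev_loglog 4
  obtain ⟨K3, h3⟩ := pow_le_two_pow (2 * W + 3)
  refine ⟨N1 + N2 + b ^ (K₀ + K3 + 4 * b ^ 3 + 4), fun T hT N hN => ?_⟩
  have hbn : 0 < b := by omega
  obtain ⟨K, hK⟩ : ∃ K, K = Nat.log b N + 1 := ⟨_, rfl⟩
  have hN0 : 0 < N := by
    have : 0 < b ^ (K₀ + K3 + 4 * b ^ 3 + 4) := Nat.pow_pos hbn
    omega
  have hKK : K₀ + K3 + 4 * b ^ 3 + 4 ≤ K := by
    have : K₀ + K3 + 4 * b ^ 3 + 4 ≤ Nat.log b N := Nat.le_log_of_pow_le (by omega) (by omega)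
    omega
  have hKlow : b ^ (K - 1) ≤ N := by
    rw [hK, Nat.add_sub_cancel]
    exact Nat.pow_log_le_self b (by omega)
  have hKup : N < b ^ K := by rw [hK]; exact Nat.lt_pow_succ_log_self (by omega) _
  have hNr : (0 : ℝ) < N := by exact_mod_cast hN0
  have hbr : (8 : ℝ) ≤ b := by exact_mod_cast (by omega : 8 ≤ b)
  have hlogb : 2 ≤ Real.log b := by
    rw [Real.le_log_iff_exp_le (by linarith)]
    have h1 := Real.exp_one_lt_d9
    have h2 : Real.exp 2 = Real.exp 1 * Real.exp 1 := by rw [← Real.exp_add]; norm_num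
    rw [h2]
    have h3 := Real.exp_pos 1
    nlinarith
  have hlogb2 : Real.log b ≤ b := (Real.log_le_sub_one_of_pos (by linarith)).trans (by linarith)
  have hKb : (b : ℝ) ≤ K := by
    have : b ≤ K := by
      have : b ≤ b ^ 3 := Nat.le_self_pow (by norm_num) b
      omega
    exact_mod_cast this
  have hK4 : (4 : ℝ) ≤ K := by exact_mod_cast (by omega : 4 ≤ K)
  -- log N against K
  have hLN1 : Real.log N ≤ (K : ℝ) ^ 2 := by
    have q1 : Real.log N ≤ K * Real.log b := by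
      have q2 : Real.log N ≤ Real.log ((b ^ K : ℕ) : ℝ) :=
        Real.log_le_log hNr (by exact_mod_cast hKup.le)
      rwa [Nat.cast_pow, Real.log_pow] at q2
    nlinarith
  have hLN2 : (K : ℝ) ≤ Real.log N := by
    have q1 : ((K - 1 : ℕ) : ℝ) * Real.log b ≤ Real.log N := by
      have q2 : Real.log ((b ^ (K - 1) : ℕ) : ℝ) ≤ Real.log N :=
        Real.log_le_log (by exact_mod_cast Nat.pow_pos hbn) (by exact_mod_cast hKlow)
      rwa [Nat.cast_pow, Real.log_pow] at q2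
    rw [Nat.cast_sub (by omega), Nat.cast_one] at q1
    nlinarith
  have hLN0 : 0 < Real.log N := by linarith
  have hK0 : (0 : ℝ) < K := by linarith
  obtain ⟨e', he'⟩ : ∃ e', e' = Nat.clog b (K ^ (2 * J)) := ⟨_, rfl⟩
  have he1 : ((e' + 3 : ℕ) : ℝ) ≤ ((4 * J + 5 : ℕ) : ℝ) * Real.log (Real.log N) := by
    have q1 := clog_le b (2 * J) K hb (by omega)
    rw [← he'] at q1
    have q2 : Real.log K ≤ Real.log (Real.log N) := Real.log_le_log hK0 hLN2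
    have q3 := one_le_log K (by omega)
    have q4 : (0 : ℝ) ≤ J := Nat.cast_nonneg J
    push_cast at q1 ⊢
    nlinarith
  obtain ⟨H, hH⟩ : ∃ H : ℕ, H = K ^ (2 * J) := ⟨_, rfl⟩
  obtain ⟨R, hR⟩ : ∃ R : ℕ, R = K ^ (2 * W) := ⟨_, rfl⟩
  have hHb : H ≤ b ^ e' := by rw [hH, he']; exact Nat.le_pow_clog (by omega) _
  have hHb2 : b ^ e' ≤ b * H := by
    rcases Nat.eq_zero_or_pos e' with h | h
    · rw [h, pow_zero]
      have : 1 ≤ H := by rw [hH]; exact Nat.one_le_pow _ _ (by omega)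
      nlinarith
    · have q1 : b ^ (e' - 1) < K ^ (2 * J) := by
        rw [he'] at h ⊢
        exact Nat.pow_pred_clog_lt_self (by omega) (by
          by_contra hc
          push Not at hc
          rw [Nat.clog_of_right_le_one hc] at h
          omega)
      have q2 : b ^ e' = b * b ^ (e' - 1) := by
        rw [← pow_succ']
        congr 1
        omega
      rw [q2, hH]
      exact Nat.mul_le_mul_left _ q1.le
  have hRN : 4 * R ≤ N := by
    have q1 : K ^ (2 * W + 3) ≤ 2 ^ K := h3 K (by omega)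
    have q2 : 2 ^ K ≤ 2 * 2 ^ (K - 1) := by
      rw [← pow_succ']
      apply le_of_eq
      congr 1
      omega
    have q3 : 2 ^ (K - 1) ≤ b ^ (K - 1) := Nat.pow_le_pow_left hb _
    have q4 : K ^ (2 * W + 3) = R * K ^ 3 := by rw [hR, pow_add]
    have q5 : 8 ≤ K ^ 3 := by
      calc 8 = 2 ^ 3 := by norm_num
        _ ≤ K ^ 3 := Nat.pow_le_pow_left (by omega) 3
    have q6 : R * 8 ≤ R * K ^ 3 := Nat.mul_le_mul_left _ q5
    omega
  obtain ⟨S, s1, s2, s3, s4⟩ := hc T hT N (by omega) (e' + 3) he1 (fun z : ℤ =>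
    ∀ h : ℕ, 1 ≤ h → (h : ℝ) ≤ Real.log N ^ J → ∀ r : ℤ, |(r : ℝ)| ≤ Real.log N ^ W →
        0 < (h : ℤ) * (z + r) → 2 ∣ (h : ℤ) * (z + r) → P ((h : ℤ) * (z + r)).toNat) (by
    intro ι Ω p Y hp hlaw hY bad hdec hbad
    rw [← hK] at hlaw
    have hKe : K + (e' + 3) = (K + e' + 1) + 2 := by ring
    rw [hKe] at hlaw
    have hp0 : ∀ ω ∈ Ω, 0 ≤ p ω := (hlaw 1 le_rfl (by simp)).nonneg
    have hub := union_bound Ω p hp0 H R (fun h r ω => 0 < (h : ℤ) * (Y ω + r) ∧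
      2 ∣ (h : ℤ) * (Y ω + r) ∧ ¬ P ((h : ℤ) * (Y ω + r)).toNat)
      (1 / ((K + e' + 1 : ℕ) : ℝ) ^ U') (by
      intro h hh r hr
      rw [mem_Icc] at hh hr
      have hlog : Nat.log b h ≤ e' + 3 := by
        have q1 : Nat.log b h ≤ e' := by
          refine (Nat.log_mono_right (hh.2.trans hHb)).trans (le_of_eq (Nat.log_pow (by omega) _))
        omega
      have hl1 := TLaw_shift (hlaw h hh.1 hlog) ((h : ℤ) * r)
      have hhb : (h : ℤ) ≤ (b : ℤ) ^ e' := by exact_mod_cast hh.2.trans hHb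
      have hh0 : (1 : ℤ) ≤ h := by exact_mod_cast hh.1
      have hRz : (4 : ℤ) * R ≤ N := by exact_mod_cast hRN
      have hNz : (N : ℤ) < (b : ℤ) ^ K := by exact_mod_cast hKup
      have hNz0 : (0 : ℤ) < N := by exact_mod_cast hN0
      refine le_trans (le_of_eq ?_) (h0 (K + e' + 1) (by omega) ι Ω p _ hl1 ?_
        (fun ω => 0 < (h : ℤ) * (Y ω + r) ∧ 2 ∣ (h : ℤ) * (Y ω + r) ∧
          ¬ P ((h : ℤ) * (Y ω + r)).toNat) (fun _ => Classical.propDecidable _) ?_)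
      · apply sum_congr rfl
        intro ω _
        congr
      · intro ω hω
        obtain ⟨y1, y2⟩ := hY ω hω
        have q0 : (h : ℤ) * Y ω + h * r = h * (Y ω + r) := by ring
        rw [q0, abs_mul, Nat.abs_cast]
        have q1 : |Y ω + r| ≤ (b : ℤ) ^ K * b := by
          have hb2 : (2 : ℤ) ≤ b := by exact_mod_cast hb
          have q2 : (b : ℤ) ^ K * 2 ≤ (b : ℤ) ^ K * b := mul_le_mul_of_nonneg_left hb2 (by positivity)
          rw [abs_le]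
          constructor <;> linarith
        calc (h : ℤ) * |Y ω + r| ≤ (b : ℤ) ^ e' * ((b : ℤ) ^ K * b) :=
              mul_le_mul hhb q1 (abs_nonneg _) (by positivity)
          _ = (b : ℤ) ^ (K + e' + 1) := by ring
      · intro ω hω hB
        obtain ⟨y1, y2⟩ := hY ω hω
        obtain ⟨z1, z2, z3⟩ := hB
        have q0 : (h : ℤ) * Y ω + h * r = h * (Y ω + r) := by ring
        rw [q0]
        refine ⟨z1, z2, ?_, z3⟩
        -- lower bound
        have q1 : (N : ℤ) ≤ 4 * (Y ω + r) := by linarith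
        have q2 : (N : ℤ) ≤ 4 * (h * (Y ω + r)) := by
          have : Y ω + r ≤ h * (Y ω + r) := by
            have q3 : 0 ≤ Y ω + r := by linarith
            nlinarith
          linarith
        have q3 : (N : ℝ) ≤ 4 * (((h : ℤ) * (Y ω + r) : ℤ) : ℝ) := by exact_mod_cast q2
        have q4 : (K : ℝ) ≤ Real.log ((b ^ (K + e' + 1) : ℕ) : ℝ) := by
          rw [Nat.cast_pow, Real.log_pow]
          push_cast
          have : (0 : ℝ) ≤ e' := Nat.cast_nonneg _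
          nlinarith
        have q5 : ((b ^ (K + e' + 1) : ℕ) : ℝ) / Real.log ((b ^ (K + e' + 1) : ℕ) : ℝ) ^ W₀ ≤
            ((b ^ (K + e' + 1) : ℕ) : ℝ) / (K : ℝ) ^ W₀ :=
          div_le_div_of_nonneg_left (Nat.cast_nonneg _) (by positivity)
            (pow_le_pow_left₀ hK0.le q4 _)
        have q6 : b ^ (K + e' + 1) ≤ b ^ (K - 1) * b ^ 3 * H := by
          have q7 : b ^ (K + e' + 1) = b ^ (K - 1) * b ^ 2 * b ^ e' := by
            rw [← pow_add, ← pow_add]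
            congr 1
            omega
          rw [q7]
          calc b ^ (K - 1) * b ^ 2 * b ^ e' ≤ b ^ (K - 1) * b ^ 2 * (b * H) :=
                Nat.mul_le_mul_left _ hHb2
            _ = b ^ (K - 1) * b ^ 3 * H := by ring
        have q8 : b ^ (K - 1) * b ^ 3 * H * 4 ≤ N * K ^ W₀ := by
          rw [hW₀, pow_succ, hH]
          have q9 : 4 * b ^ 3 ≤ K := by omega
          calc b ^ (K - 1) * b ^ 3 * K ^ (2 * J) * 4 = b ^ (K - 1) * (K ^ (2 * J) * (4 * b ^ 3)) := by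
                ring
            _ ≤ N * (K ^ (2 * J) * K) := Nat.mul_le_mul hKlow (Nat.mul_le_mul_left _ q9)
        have q10 : ((b ^ (K + e' + 1) : ℕ) : ℝ) * 4 ≤ N * (K : ℝ) ^ W₀ := by
          have : b ^ (K + e' + 1) * 4 ≤ N * K ^ W₀ := (Nat.mul_le_mul_right 4 q6).trans q8
          exact_mod_cast this
        refine q5.trans ?_
        rw [div_le_iff₀ (by positivity)]
        have hKW : (0 : ℝ) < (K : ℝ) ^ W₀ := by positivity
        nlinarith) bad hdec (by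
      intro ω hω hB
      have hB' := hbad ω hω hB
      push Not at hB'
      obtain ⟨h, a1, a2, r, a3, a4, a5, a6⟩ := hB'
      refine ⟨h, mem_Icc.2 ⟨a1, ?_⟩, r, mem_Icc.2 (abs_le.1 ?_), a4, a5, a6⟩
      · have q1 : (h : ℝ) ≤ ((K : ℝ) ^ 2) ^ J := a2.trans (pow_le_pow_left₀ hLN0.le hLN1 _)
        rw [← pow_mul] at q1
        rw [hH]
        exact_mod_cast q1
      · have q1 : |(r : ℝ)| ≤ ((K : ℝ) ^ 2) ^ W := a3.trans (pow_le_pow_left₀ hLN0.le hLN1 _)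
        rw [← pow_mul] at q1
        rw [hR]
        have q2 : ((|r| : ℤ) : ℝ) ≤ ((K ^ (2 * W) : ℕ) : ℝ) := by
          push_cast
          exact q1
        exact_mod_cast q2)
    refine hub.trans ?_
    have q1 : (1 : ℝ) / ((K + e' + 1 : ℕ) : ℝ) ^ U' ≤ 1 / (K : ℝ) ^ U' := by
      apply one_div_le_one_div_of_le (by positivity)
      apply pow_le_pow_left₀ hK0.le
      exact_mod_cast (by omega : K ≤ K + e' + 1)
    have q2 : (2 * (R : ℝ) + 1) ≤ (K : ℝ) ^ (2 * W + 1) := by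
      have q3 : (1 : ℝ) ≤ (K : ℝ) ^ (2 * W) := one_le_pow₀ (by linarith)
      rw [hR, pow_succ]
      push_cast
      nlinarith
    have q4 : (H : ℝ) = (K : ℝ) ^ (2 * J) := by rw [hH]; push_cast; rfl
    have q5 : (K : ℝ) ^ U' = (K : ℝ) ^ (2 * J) * (K : ℝ) ^ (2 * W + 1) * K := by
      rw [hU']
      ring
    have hJ0 : (0 : ℝ) < (K : ℝ) ^ (2 * J) := by positivity
    have hW0 : (0 : ℝ) < (K : ℝ) ^ (2 * W + 1) := by positivity
    calc (H : ℝ) * ((2 * R + 1) * (1 / ((K + e' + 1 : ℕ) : ℝ) ^ U'))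
        ≤ (K : ℝ) ^ (2 * J) * ((K : ℝ) ^ (2 * W + 1) * (1 / (K : ℝ) ^ U')) := by
          rw [q4]
          gcongr
      _ = 1 / K := by
          rw [q5]
          field_simp
      _ ≤ 1 / 2 := by
          apply one_div_le_one_div_of_le (by norm_num)
          linarith)
  exact ⟨S, s1, s2, s3, s4⟩

end Pool.Agent.P8H89.GM
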