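import Pool.Agent.Y958.RM.Lawh
import Pool.Agent.Y885.WI2

set_option autoImplicit false

/-! Goldbach pairs for all the even multiples of all the integers near almost all the values of sums
of independent random integers. -/

namespace Pool.Agent.P8H89.GM
open Finset
open Pool.Agent.Y885
open Pool.Agent.W93.PG (WinP)

lemma one_le_log (k : ℕ) (hk : 3 ≤ k) : 1 ≤ Real.log k := by
  have h3 : (3 : ℝ) ≤ k := by exact_mod_cast hk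
  rw [Real.le_log_iff_exp_le (by linarith)]
  have := Real.exp_one_lt_d9
  linarith

lemma clog_le (b J k : ℕ) (hb : 2 ≤ b) (hk : 3 ≤ k) :
    (Nat.clog b (k ^ J) : ℝ) ≤ 1 + 2 * J * Real.log k := by
  have hl := one_le_log k hk
  have hJ : (0 : ℝ) ≤ J := Nat.cast_nonneg J
  rcases Nat.eq_zero_or_pos (Nat.clog b (k ^ J)) with h0 | h0
  · rw [h0, Nat.cast_zero]
    have := mul_nonneg hJ (by linarith : 0 ≤ Real.log k)
    linarith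
  · have h1 : b ^ (Nat.clog b (k ^ J) - 1) < k ^ J :=
      Nat.pow_pred_clog_lt_self (by omega) (by
        by_contra hc
        push Not at hc
        rw [Nat.clog_of_right_le_one hc] at h0
        omega)
    have h2 : 2 ^ (Nat.clog b (k ^ J) - 1) ≤ k ^ J := (Nat.pow_le_pow_left hb _).trans h1.le
    have h3 : (2 : ℝ) ^ (Nat.clog b (k ^ J) - 1) ≤ (k : ℝ) ^ J := by exact_mod_cast h2
    have h4 := Real.log_le_log (by positivity) h3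
    rw [Real.log_pow, Real.log_pow, Nat.cast_sub h0, Nat.cast_one] at h4
    have h5 := Real.log_two_gt_d9
    have h6 : (1 : ℝ) ≤ (Nat.clog b (k ^ J) : ℝ) := by exact_mod_cast h0
    nlinarith

lemma e_le (b B J k : ℕ) (hb : 2 ≤ b) (hk : 3 ≤ k) :
    ((2 * B + 4 + Nat.clog b (k ^ J) : ℕ) : ℝ) ≤ ((2 * J + 2 * B + 5 : ℕ) : ℝ) * Real.log k := by
  have h1 := clog_le b J k hb hk
  have h2 := one_le_log k hk
  have hB : (0 : ℝ) ≤ B := Nat.cast_nonneg B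
  have hJ : (0 : ℝ) ≤ J := Nat.cast_nonneg J
  push_cast
  nlinarith [mul_nonneg hB (by linarith : 0 ≤ Real.log k - 1)]

open Classical in
/-- one multiplier -/
theorem one (b B D J U m₀ A : ℕ) (hb : 2 ≤ b) (hB : 1 ≤ B) (η δ ε : ℝ) (hη : 0 < η) (hδ : 0 < δ)
    (hε : 0 < ε) (P : ℕ → Prop) (hP : ∀ m : ℕ, m₀ ≤ m → 2 ∣ m → WinP ε A m → P m) :
    ∃ k₀ : ℕ, ∀ k : ℕ, k₀ ≤ k → ∀ h : ℕ, 1 ≤ h → h ≤ k ^ J →
    ∀ (T : Finset ℕ) (s : ℕ → Finset ℤ) (p : ℕ → ℤ → ℝ) (C : ℤ),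
    Rich δ D k T →
    (∀ j < k, (∀ x ∈ s j, 0 ≤ p j x ∧ |x| ≤ (B : ℤ) * (b : ℤ) ^ j) ∧ ∑ x ∈ s j, p j x = 1) →
    (∀ j ∈ T, ∀ y : ℤ, ∑ x ∈ s j, (if y ≤ x ∧ (B : ℤ) * (x - y) ≤ (b : ℤ) ^ j then p j x else 0) ≤ 1 - η) →
    |C| ≤ ((B + 1 : ℕ) : ℤ) * (b : ℤ) ^ k →
    ∑ ω ∈ Fintype.piFinset (fun j : Fin k => s j), (if (0 < (h : ℤ) * (C + ∑ j : Fin k, ω j) ∧
        2 ∣ (h : ℤ) * (C + ∑ j : Fin k, ω j) ∧ ¬ P ((h : ℤ) * (C + ∑ j : Fin k, ω j)).toNat)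
      then ∏ j : Fin k, p j (ω j) else 0) ≤ 1 / (k : ℝ) ^ U := by
  obtain ⟨E, hE, hL⟩ := Pool.Agent.Y958.RM.lawh b hb B D hB η δ hη hδ
  obtain ⟨c₁, k1, h1⟩ := hL (2 * J + 2 * B + 5) (U + 3)
  obtain ⟨V, hV⟩ := tl_windows b hb E c₁ A U m₀ hE ε hε P hP
  obtain ⟨c₂, k2, h2⟩ := hL (2 * J + 2 * B + 5) V
  obtain ⟨K₀, h3⟩ := hV c₂
  refine ⟨k1 + k2 + K₀ + 3, fun k hk h hh1 hh2 T s p C hR hps hspread hC => ?_⟩
  obtain ⟨e, he⟩ : ∃ e, e = 2 * B + 4 + Nat.clog b (k ^ J) := ⟨_, rfl⟩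
  have he1 : (e : ℝ) ≤ ((2 * J + 2 * B + 5 : ℕ) : ℝ) * Real.log k := by
    rw [he]
    exact e_le b B J k hb (by omega)
  have hhb : h ≤ b ^ Nat.clog b (k ^ J) := hh2.trans (Nat.le_pow_clog (by omega) _)
  have he2 : Nat.log b h ≤ e := by
    have q1 : Nat.log b h ≤ Nat.clog b (k ^ J) :=
      (Nat.log_mono_right hhb).trans (le_of_eq (Nat.log_pow (by omega) _))
    omega
  have g1 := h1 k (by omega) e he1 h hh1 he2 T s p C hR hps hspread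
  have g2 := h2 k (by omega) e he1 h hh1 he2 T s p C hR hps hspread
  have hKe : k + e = (k + 2 * (B + 1) + Nat.clog b (k ^ J)) + 2 := by rw [he]; ring
  rw [hKe] at g1 g2
  have g3 := h3 (k + 2 * (B + 1) + Nat.clog b (k ^ J)) (by omega) _ _ _ _ g1 g2 (by
    intro ω hω
    have q1 := rand_le b (B + 1) k hb s C (fun j hj x hx => ((hps j hj).1 x hx).2.trans
      (mul_le_mul_of_nonneg_right (by push_cast; linarith) (by positivity))) hC ω hω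
    rw [abs_mul, Nat.abs_cast, pow_add _ (k + 2 * (B + 1)), mul_comm]
    exact mul_le_mul q1 (by exact_mod_cast hhb) (Int.natCast_nonneg _) (by positivity))
    (fun ω => 0 < (h : ℤ) * (C + ∑ j : Fin k, ω j) ∧ 2 ∣ (h : ℤ) * (C + ∑ j : Fin k, ω j) ∧
      ¬ P ((h : ℤ) * (C + ∑ j : Fin k, ω j)).toNat) (fun _ => Classical.propDecidable _)
    (fun ω _ hω => hω)
  refine (le_trans (le_of_eq ?_) g3).trans ?_
  · apply sum_congr rfl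
    intro ω _
    congr
  · have hk0 : (0 : ℝ) < k := by exact_mod_cast (by omega : 0 < k)
    apply one_div_le_one_div_of_le (by positivity)
    apply pow_le_pow_left₀ hk0.le
    exact_mod_cast (by omega : k ≤ k + 2 * (B + 1) + Nat.clog b (k ^ J))

lemma pow_le_two_pow (W : ℕ) : ∃ k₀ : ℕ, ∀ k : ℕ, k₀ ≤ k → k ^ W ≤ 2 ^ k := by
  have h := tendsto_pow_const_div_const_pow_of_one_lt W (by norm_num : (1 : ℝ) < 2)
  have h2 := (h.eventually (gt_mem_nhds (by norm_num : (0 : ℝ) < 1))).exists_forall_of_atTop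
  obtain ⟨k₀, h3⟩ := h2
  refine ⟨k₀, fun k hk => ?_⟩
  have h4 := h3 k hk
  rw [div_lt_one (by positivity)] at h4
  exact_mod_cast h4.le

open Classical in
/-- all multipliers and all shifts -/
theorem mult (b B D J W U m₀ A : ℕ) (hb : 2 ≤ b) (hB : 1 ≤ B) (η δ ε : ℝ) (hη : 0 < η) (hδ : 0 < δ)
    (hε : 0 < ε) (P : ℕ → Prop) (hP : ∀ m : ℕ, m₀ ≤ m → 2 ∣ m → WinP ε A m → P m) :
    ∃ k₀ : ℕ, ∀ k : ℕ, k₀ ≤ k →
    ∀ (T : Finset ℕ) (s : ℕ → Finset ℤ) (p : ℕ → ℤ → ℝ) (C : ℤ),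
    Rich δ D k T →
    (∀ j < k, (∀ x ∈ s j, 0 ≤ p j x ∧ |x| ≤ (B : ℤ) * (b : ℤ) ^ j) ∧ ∑ x ∈ s j, p j x = 1) →
    (∀ j ∈ T, ∀ y : ℤ, ∑ x ∈ s j, (if y ≤ x ∧ (B : ℤ) * (x - y) ≤ (b : ℤ) ^ j then p j x else 0) ≤ 1 - η) →
    |C| ≤ (B : ℤ) * (b : ℤ) ^ k →
    ∑ ω ∈ Fintype.piFinset (fun j : Fin k => s j), (if (∃ h : ℕ, 1 ≤ h ∧ h ≤ k ^ J ∧ ∃ r : ℤ, |r| ≤ (k : ℤ) ^ W ∧
        0 < (h : ℤ) * (C + ∑ j : Fin k, ω j + r) ∧
        2 ∣ (h : ℤ) * (C + ∑ j : Fin k, ω j + r) ∧ ¬ P ((h : ℤ) * (C + ∑ j : Fin k, ω j + r)).toNat)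
      then ∏ j : Fin k, p j (ω j) else 0) ≤ 1 / (k : ℝ) ^ U := by
  obtain ⟨k1, h1⟩ := one b B D J (U + J + W + 2) m₀ A hb hB η δ ε hη hδ hε P hP
  obtain ⟨k2, h2⟩ := pow_le_two_pow W
  refine ⟨k1 + k2 + 3, fun k hk T s p C hR hps hspread hC => ?_⟩
  have hkr : (3 : ℝ) ≤ k := by exact_mod_cast (by omega : 3 ≤ k)
  have hp0 : ∀ ω ∈ Fintype.piFinset (fun j : Fin k => s j), 0 ≤ ∏ j : Fin k, p j (ω j) := by
    intro ω hω
    rw [Fintype.mem_piFinset] at hω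
    exact prod_nonneg fun j _ => ((hps j j.2).1 _ (hω j)).1
  have hkW : (k : ℤ) ^ W ≤ (b : ℤ) ^ k := by
    have q1 : k ^ W ≤ b ^ k := (h2 k (by omega)).trans (Nat.pow_le_pow_left hb k)
    exact_mod_cast q1
  have hCr : ∀ r : ℤ, |r| ≤ (k : ℤ) ^ W → |C + r| ≤ ((B + 1 : ℕ) : ℤ) * (b : ℤ) ^ k := by
    intro r hr
    refine (abs_add_le _ _).trans ?_
    push_cast
    linarith
  have hone : ∀ h ∈ Icc 1 (k ^ J), ∀ r ∈ Icc (-((k : ℤ) ^ W)) ((k : ℤ) ^ W),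
      ∑ ω ∈ Fintype.piFinset (fun j : Fin k => s j), (if (0 < (h : ℤ) * (C + ∑ j : Fin k, ω j + r) ∧
        2 ∣ (h : ℤ) * (C + ∑ j : Fin k, ω j + r) ∧ ¬ P ((h : ℤ) * (C + ∑ j : Fin k, ω j + r)).toNat)
      then ∏ j : Fin k, p j (ω j) else 0) ≤ 1 / (k : ℝ) ^ (U + J + W + 2) := by
    intro h hh r hr
    rw [mem_Icc] at hh hr
    have g := h1 k (by omega) h hh.1 hh.2 T s p (C + r) hR hps hspread (hCr r (abs_le.2 hr))
    refine le_trans (le_of_eq ?_) g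
    apply sum_congr rfl
    intro ω _
    have e : C + r + ∑ j : Fin k, ω j = C + ∑ j : Fin k, ω j + r := by ring
    rw [e]
  have hpt : ∀ ω ∈ Fintype.piFinset (fun j : Fin k => s j),
      (if (∃ h : ℕ, 1 ≤ h ∧ h ≤ k ^ J ∧ ∃ r : ℤ, |r| ≤ (k : ℤ) ^ W ∧
        0 < (h : ℤ) * (C + ∑ j : Fin k, ω j + r) ∧
        2 ∣ (h : ℤ) * (C + ∑ j : Fin k, ω j + r) ∧ ¬ P ((h : ℤ) * (C + ∑ j : Fin k, ω j + r)).toNat)
      then ∏ j : Fin k, p j (ω j) else 0) ≤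
      ∑ h ∈ Icc 1 (k ^ J), ∑ r ∈ Icc (-((k : ℤ) ^ W)) ((k : ℤ) ^ W),
      (if (0 < (h : ℤ) * (C + ∑ j : Fin k, ω j + r) ∧
        2 ∣ (h : ℤ) * (C + ∑ j : Fin k, ω j + r) ∧ ¬ P ((h : ℤ) * (C + ∑ j : Fin k, ω j + r)).toNat)
      then ∏ j : Fin k, p j (ω j) else 0) := by
    intro ω hω
    have hw := hp0 ω hω
    have hn : ∀ h ∈ Icc 1 (k ^ J), ∀ r ∈ Icc (-((k : ℤ) ^ W)) ((k : ℤ) ^ W),
        0 ≤ (if (0 < (h : ℤ) * (C + ∑ j : Fin k, ω j + r) ∧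
        2 ∣ (h : ℤ) * (C + ∑ j : Fin k, ω j + r) ∧ ¬ P ((h : ℤ) * (C + ∑ j : Fin k, ω j + r)).toNat)
      then ∏ j : Fin k, p j (ω j) else 0) := by
      intro h _ r _
      split_ifs
      · exact hw
      · exact le_rfl
    split_ifs with hex
    · obtain ⟨h, a1, a2, r, a3, a4⟩ := hex
      have q1 := single_le_sum (f := fun h : ℕ => ∑ r ∈ Icc (-((k : ℤ) ^ W)) ((k : ℤ) ^ W),
        (if (0 < (h : ℤ) * (C + ∑ j : Fin k, ω j + r) ∧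
        2 ∣ (h : ℤ) * (C + ∑ j : Fin k, ω j + r) ∧ ¬ P ((h : ℤ) * (C + ∑ j : Fin k, ω j + r)).toNat)
        then ∏ j : Fin k, p j (ω j) else 0)) (fun h hh => sum_nonneg (hn h hh)) (mem_Icc.2 ⟨a1, a2⟩)
      refine le_trans ?_ q1
      have q2 := single_le_sum (f := fun r : ℤ =>
        (if (0 < (h : ℤ) * (C + ∑ j : Fin k, ω j + r) ∧
        2 ∣ (h : ℤ) * (C + ∑ j : Fin k, ω j + r) ∧ ¬ P ((h : ℤ) * (C + ∑ j : Fin k, ω j + r)).toNat)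
        then ∏ j : Fin k, p j (ω j) else 0)) (hn h (mem_Icc.2 ⟨a1, a2⟩)) (mem_Icc.2 (abs_le.1 a3))
      refine le_trans ?_ q2
      rw [if_pos a4]
    · exact sum_nonneg fun h hh => sum_nonneg (hn h hh)
  refine (sum_le_sum hpt).trans ?_
  rw [sum_comm]
  have hstep : ∀ h ∈ Icc 1 (k ^ J), ∑ ω ∈ Fintype.piFinset (fun j : Fin k => s j),
      ∑ r ∈ Icc (-((k : ℤ) ^ W)) ((k : ℤ) ^ W),
      (if (0 < (h : ℤ) * (C + ∑ j : Fin k, ω j + r) ∧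
        2 ∣ (h : ℤ) * (C + ∑ j : Fin k, ω j + r) ∧ ¬ P ((h : ℤ) * (C + ∑ j : Fin k, ω j + r)).toNat)
      then ∏ j : Fin k, p j (ω j) else 0) ≤
      (2 * (k : ℝ) ^ W + 1) * (1 / (k : ℝ) ^ (U + J + W + 2)) := by
    intro h hh
    rw [sum_comm]
    refine (sum_le_sum (hone h hh)).trans ?_
    rw [sum_const, Int.card_Icc, nsmul_eq_mul]
    apply le_of_eq
    congr 1
    have q1 : ((k : ℤ) ^ W + 1 - -(k : ℤ) ^ W).toNat = 2 * k ^ W + 1 := by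
      have q2 : (k : ℤ) ^ W + 1 - -(k : ℤ) ^ W = ((2 * k ^ W + 1 : ℕ) : ℤ) := by
        push_cast
        ring
      rw [q2, Int.toNat_natCast]
    rw [q1]
    push_cast
    ring
  refine (sum_le_sum hstep).trans ?_
  rw [sum_const, Nat.card_Icc, nsmul_eq_mul, Nat.add_sub_cancel, Nat.cast_pow]
  have hk0 : (0 : ℝ) < k := by linarith
  have q3 : (2 * (k : ℝ) ^ W + 1) ≤ (k : ℝ) ^ (W + 1) := by
    have q4 : (1 : ℝ) ≤ (k : ℝ) ^ W := one_le_pow₀ (by linarith)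
    rw [pow_succ]
    nlinarith
  have q5 : (k : ℝ) ^ (U + J + W + 2) = (k : ℝ) ^ J * (k : ℝ) ^ (W + 1) * ((k : ℝ) ^ U * k) := by
    ring
  rw [q5]
  have hJ0 : (0 : ℝ) < (k : ℝ) ^ J := by positivity
  have hW0 : (0 : ℝ) < (k : ℝ) ^ (W + 1) := by positivity
  have hU0 : (0 : ℝ) < (k : ℝ) ^ U := by positivity
  calc (k : ℝ) ^ J * ((2 * (k : ℝ) ^ W + 1) * (1 / ((k : ℝ) ^ J * (k : ℝ) ^ (W + 1) * ((k : ℝ) ^ U * k))))
      ≤ (k : ℝ) ^ J * ((k : ℝ) ^ (W + 1) * (1 / ((k : ℝ) ^ J * (k : ℝ) ^ (W + 1) * ((k : ℝ) ^ U * k)))) := by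
        gcongr
    _ = 1 / ((k : ℝ) ^ U * k) := by
        field_simp
    _ ≤ 1 / (k : ℝ) ^ U := by
        apply one_div_le_one_div_of_le hU0
        nlinarith

end Pool.Agent.P8H89.GM
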